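import Pool.Agent.MP_6026f4_co.Defs

/- Limits of positive sums of geometric sequences, and their quotients by powers of `n + a`. -/

namespace Pool.Agent.MP_6026f4_co.CX

open Filter Topology

/-- Nonnegative geometric sequences. -/
def Geo : Set (ℕ → ℝ) := {x | ∃ c t : ℝ, 0 ≤ c ∧ 0 ≤ t ∧ x = fun n => c * t ^ n}

/-- Pointwise limits of finite sums of nonnegative geometric sequences. -/
noncomputable def SS : AddSubmonoid (ℕ → ℝ) := (AddSubmonoid.closure Geo).topologicalClosure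

theorem SS_closed : IsClosed (SS : Set (ℕ → ℝ)) := AddSubmonoid.isClosed_topologicalClosure _

theorem geo_mem {c t : ℝ} (hc : 0 ≤ c) (ht : 0 ≤ t) : (fun n => c * t ^ n) ∈ SS :=
  AddSubmonoid.le_topologicalClosure _ (AddSubmonoid.subset_closure ⟨c, t, hc, ht, rfl⟩)

theorem const_mem {c : ℝ} (hc : 0 ≤ c) : (fun _ => c) ∈ SS := by
  simpa using geo_mem hc zero_le_one

theorem SS_bil (f : (ℕ → ℝ) → (ℕ → ℝ) → ℕ → ℝ) (hc : Continuous (Function.uncurry f))
    (h0 : ∀ y, f 0 y = 0) (h0' : ∀ x, f x 0 = 0) (ha : ∀ x x' y, f (x + x') y = f x y + f x' y)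
    (ha' : ∀ x y y', f x (y + y') = f x y + f x y') (hg : ∀ x ∈ Geo, ∀ y ∈ Geo, f x y ∈ Geo)
    {x y : ℕ → ℝ} (hx : x ∈ SS) (hy : y ∈ SS) : f x y ∈ SS := by
  refine map_mem_closure₂ hc hx hy fun a ha0 b hb0 => ?_
  refine AddSubmonoid.closure_induction₂ (motive := fun a b _ _ => f a b ∈ AddSubmonoid.closure Geo)
    (fun a b ha hb => AddSubmonoid.subset_closure (hg a ha b hb))
    (fun b _ => by rw [h0]; exact zero_mem _) (fun a _ => by rw [h0']; exact zero_mem _)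
    (fun a b c _ _ _ h1 h2 => by rw [ha]; exact add_mem h1 h2)
    (fun a b c _ _ _ h1 h2 => by rw [ha']; exact add_mem h1 h2) ha0 hb0

theorem SS_nonneg {x : ℕ → ℝ} (hx : x ∈ SS) (n : ℕ) : 0 ≤ x n := by
  have hc : IsClosed {x : ℕ → ℝ | 0 ≤ x n} := isClosed_le continuous_const (continuous_apply n)
  refine hc.closure_subset_iff.2 (fun a ha => ?_) hx
  refine AddSubmonoid.closure_induction (motive := fun a _ => 0 ≤ a n) ?_ le_rfl
    (fun a b _ _ h1 h2 => add_nonneg h1 h2) ha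
  rintro _ ⟨c, t, hc, ht, rfl⟩
  positivity

theorem SS_mul_shift (k : ℕ) {x y : ℕ → ℝ} (hx : x ∈ SS) (hy : y ∈ SS) :
    (fun n => x n * y (n + k)) ∈ SS := by
  refine SS_bil (fun x y n => x n * y (n + k)) (by fun_prop) (fun _ => by ext; simp)
    (fun _ => by ext; simp) (fun _ _ _ => by ext; simp [add_mul])
    (fun _ _ _ => by ext; simp [mul_add]) ?_ hx hy
  rintro _ ⟨c, t, hc, ht, rfl⟩ _ ⟨c', t', hc', ht', rfl⟩
  exact ⟨c * c' * t' ^ k, t * t', by positivity, by positivity, by ext; ring⟩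

theorem SS_mul {x y : ℕ → ℝ} (hx : x ∈ SS) (hy : y ∈ SS) : (fun n => x n * y n) ∈ SS :=
  SS_mul_shift 0 hx hy

theorem SS_add {x y : ℕ → ℝ} (hx : x ∈ SS) (hy : y ∈ SS) : (fun n => x n + y n) ∈ SS :=
  add_mem hx hy

theorem SS_L {x : ℕ → ℝ} (hx : x ∈ SS) : logConvexOp x ∈ SS := by
  have h := SS_bil (fun x y n => (x n * y (n + 2) + y n * x (n + 2)) / 2 - x (n + 1) * y (n + 1))
    (by fun_prop) (fun _ => by ext; simp) (fun _ => by ext; simp)
    (fun _ _ _ => by ext; simp only [Pi.add_apply]; ring)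
    (fun _ _ _ => by ext; simp only [Pi.add_apply]; ring) (by
      rintro _ ⟨c, t, hc, ht, rfl⟩ _ ⟨c', t', hc', ht', rfl⟩
      exact ⟨c * c' * (t - t') ^ 2 / 2, t * t', by positivity, by positivity, by ext; ring⟩) hx hx
  convert h using 2 with n
  unfold logConvexOp
  ring

theorem SS_lim {ι : Type} {l : Filter ι} [l.NeBot] {x : ι → ℕ → ℝ} {y : ℕ → ℝ}
    (hx : ∀ᶠ i in l, x i ∈ SS) (h : ∀ n, Tendsto (fun i => x i n) l (𝓝 (y n))) : y ∈ SS :=
  SS_closed.mem_of_tendsto (tendsto_pi_nhds.2 h) hx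

theorem SS_hasSum {x : ℕ → ℕ → ℝ} {y : ℕ → ℝ} (hx : ∀ j, x j ∈ SS)
    (h : ∀ n, HasSum (fun j => x j n) (y n)) : y ∈ SS :=
  SS_lim (l := atTop) (x := fun J => ∑ j ∈ Finset.range J, x j)
    (Eventually.of_forall fun _ => sum_mem fun j _ => hx j) fun n => by
      simpa only [Finset.sum_apply] using (h n).tendsto_sum_nat

theorem inv_succ_mem : (fun n : ℕ => 1 / ((n : ℝ) + 1)) ∈ SS := by
  have : (𝓝[Set.Ioo (0 : ℝ) 1] 1).NeBot := right_nhdsWithin_Ioo_neBot zero_lt_one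
  refine SS_lim (l := 𝓝[Set.Ioo (0 : ℝ) 1] 1) (x := fun r n => (∑ i ∈ Finset.range (n + 1), r ^ i)⁻¹)
    (eventually_mem_nhdsWithin.mono fun r hr => ?_) fun n => ?_
  · refine SS_hasSum (x := fun j n => (1 - r) * r ^ j * (r ^ j) ^ n)
      (fun j => geo_mem (mul_nonneg (by linarith [hr.2]) (pow_nonneg hr.1.le _))
        (pow_nonneg hr.1.le _)) fun n => ?_
    have h1 : r ^ (n + 1) < 1 := pow_lt_one₀ hr.1.le hr.2 n.succ_ne_zero
    have h := (hasSum_geometric_of_lt_one (pow_nonneg hr.1.le (n + 1)) h1).mul_left (1 - r)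
    rw [← mul_neg_geom_sum, mul_inv, ← mul_assoc, mul_inv_cancel₀ (by linarith [hr.2]),
      one_mul] at h
    exact h.congr_fun fun j => by ring
  · refine Tendsto.mono_left ?_ nhdsWithin_le_nhds
    have hc : ContinuousAt (fun r : ℝ => (∑ i ∈ Finset.range (n + 1), r ^ i)⁻¹) 1 :=
      ContinuousAt.inv₀ (by fun_prop) (by simp; positivity)
    simpa using hc.tendsto

theorem inv_mem (a : ℕ) : (fun n : ℕ => 1 / ((n : ℝ) + a + 1)) ∈ SS := by
  simpa using SS_mul_shift a (const_mem zero_le_one) inv_succ_mem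

theorem pow_sub_one_mem {u : ℕ → ℝ} (hu : u ∈ SS) (α : ℕ) :
    (fun n => (1 + u n) ^ α - 1) ∈ SS := by
  induction α with
  | zero => simpa using const_mem le_rfl
  | succ α ih =>
    convert SS_add (SS_mul ih (SS_add (const_mem zero_le_one) hu)) hu using 2
    ring

/-- Sequences `m i / (i + a + 1) ^ α` with `m` in the class. -/
def Cls (a α : ℕ) (y : ℕ → ℝ) : Prop := (fun i : ℕ => y i * ((i : ℝ) + a + 1) ^ α) ∈ SS

theorem Cls.step {a α : ℕ} {y : ℕ → ℝ} (h : Cls a α y) : Cls (a + 1) (2 * α) (logConvexOp y) := by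
  have h1 := SS_add (SS_mul (SS_mul_shift 2 h h)
    (pow_sub_one_mem (SS_mul (inv_mem a) (inv_mem (a + 2))) α)) (SS_L h)
  unfold Cls
  convert h1 using 2 with i
  have e : (((i : ℝ) + a + 1) * ((i : ℝ) + a + 3)) *
      (1 + 1 / ((i : ℝ) + a + 1) * (1 / ((i : ℝ) + a + 3))) = (i + a + 2) ^ 2 := by
    field_simp
    ring
  have e2 := congrArg (· ^ α) e
  simp only [mul_pow, ← pow_mul] at e2
  unfold logConvexOp
  push_cast
  simp only [show (i : ℝ) + 2 + a + 1 = i + a + 3 by ring, show (i : ℝ) + (a + 2) + 1 = i + a + 3 by ring,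
    show (i : ℝ) + (a + 1) + 1 = i + a + 2 by ring, show (i : ℝ) + 1 + a + 1 = i + a + 2 by ring]
  linear_combination (-(y i * y (i + 2))) * e2

theorem Cls.ratio {a α : ℕ} {y : ℕ → ℝ} (h : Cls a α y) (i : ℕ) :
    y (i + 1) ^ 2 ≤ (1 - 1 / ((i : ℝ) + a + 2) ^ 2) ^ α * (y i * y (i + 2)) := by
  have h1 := SS_nonneg (SS_L h) i
  have e : (1 - 1 / ((i : ℝ) + a + 2) ^ 2) * (i + a + 2) ^ 2 =
      ((i : ℝ) + a + 1) * ((i : ℝ) + a + 3) := by
    field_simp
    ring
  have e2 := congrArg (· ^ α) e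
  simp only [mul_pow, ← pow_mul] at e2
  unfold logConvexOp at h1
  push_cast at h1
  simp only [show (i : ℝ) + 2 + a + 1 = i + a + 3 by ring,
    show (i : ℝ) + 1 + a + 1 = i + a + 2 by ring] at h1
  refine le_of_mul_le_mul_right ?_ (by positivity : (0 : ℝ) < ((i : ℝ) + a + 2) ^ (2 * α))
  have e3 : ((i : ℝ) + a + 2) ^ (2 * α) = (((i : ℝ) + a + 2) ^ α) ^ 2 := by ring
  nlinarith [congrArg (· * (y i * y (i + 2))) e2]

theorem Cls.iter {y : ℕ → ℝ} (h : Cls 1 1 y) (k : ℕ) : Cls (k + 1) (2 ^ k) (logConvexOp^[k] y) := by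
  induction k with
  | zero => exact h
  | succ k ih => rw [Function.iterate_succ_apply', pow_succ']; exact ih.step

theorem iter_shift (y : ℕ → ℝ) (k i : ℕ) :
    (logConvexOp^[k] fun n => y (n + 1)) i = (logConvexOp^[k] y) (i + 1) := by
  induction k generalizing i with
  | zero => rfl
  | succ k ih => simp only [Function.iterate_succ_apply', logConvexOp, ih]

/-- The behaviour of all iterates of a pure sequence. -/
def Pure (z : ℕ → ℝ) : Prop := ∀ k m : ℕ, 1 ≤ m → 0 < (logConvexOp^[k] z) m ∧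
  (logConvexOp^[k] z) (m + 1) ^ 2 ≤ (1 - 1 / ((m : ℝ) + k + 2) ^ 2) ^ 2 ^ k *
    ((logConvexOp^[k] z) m * (logConvexOp^[k] z) (m + 2))

theorem pure_of_cls {z : ℕ → ℝ} (h0 : ∀ m, 1 ≤ m → 0 < z m) (h : Cls 1 1 fun n => z (n + 1)) :
    Pure z := by
  have h2 : ∀ k m : ℕ, 1 ≤ m → (logConvexOp^[k] z) (m + 1) ^ 2 ≤
      (1 - 1 / ((m : ℝ) + k + 2) ^ 2) ^ 2 ^ k *
        ((logConvexOp^[k] z) m * (logConvexOp^[k] z) (m + 2)) := fun k m hm => by
    obtain ⟨i, rfl⟩ := Nat.exists_eq_add_of_le' hm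
    have := (h.iter k).ratio i
    simp only [iter_shift] at this
    convert this using 6
    push_cast
    ring
  have h1 : ∀ k m : ℕ, 1 ≤ m → 0 < (logConvexOp^[k] z) m := fun k => by
    induction k with
    | zero => exact h0
    | succ k ih =>
      intro m hm
      rw [Function.iterate_succ_apply', logConvexOp, sub_pos]
      refine (h2 k m hm).trans_lt (mul_lt_of_lt_one_left
        (mul_pos (ih m hm) (ih _ (by omega))) (pow_lt_one₀ ?_ ?_ (by positivity)))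
      · rw [sub_nonneg, div_le_one (by positivity)]
        nlinarith [m.cast_nonneg (α := ℝ), k.cast_nonneg (α := ℝ)]
      · have : (0 : ℝ) < 1 / ((m : ℝ) + k + 2) ^ 2 := by positivity
        linarith
  exact fun k m hm => ⟨h1 k m hm, h2 k m hm⟩

end Pool.Agent.MP_6026f4_co.CX
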