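import Mathlib

namespace Pool.Agent.MP_6026f4_co

open MeasureTheory

/-- The generalized Apery numbers. -/
def apery (r s n : ℕ) : ℕ := ∑ k ∈ Finset.range (n + 1), n.choose k ^ r * (n + k).choose k ^ s

/-- Stieltjes moment sequences. -/
def IsStieltjesMoment (x : ℕ → ℝ) : Prop :=
  ∃ μ : Measure NNReal, ∀ n : ℕ,
    Integrable (fun t : NNReal => (t : ℝ) ^ n) μ ∧ ∫ t, (t : ℝ) ^ n ∂μ = x n

/-- The operator `L`. -/
def logConvexOp (x : ℕ → ℝ) : ℕ → ℝ := fun n => x n * x (n + 2) - x (n + 1) ^ 2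

/-- Infinite log-convexity. -/
def IsInfLogConvex (x : ℕ → ℝ) : Prop := ∀ k : ℕ, 1 ≤ k → ∀ n : ℕ, 0 ≤ (logConvexOp^[k] x) n

end Pool.Agent.MP_6026f4_co
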